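import Pool.Agent.H282R3.FP.Stmts

/-!
# Dependent choice with history for fusion sequences
-/

set_option autoImplicit false

namespace Pool.Agent.H304R3.FP

open Set Pool.Agent.H282R3.FP

variable {W : Type} [LinearOrder W]

/-- A bound beyond which all columns of `q` extend late columns of all the conditions in `L`. -/
theorem exists_bound (q : Cond W) (b : Bool) (i : ℕ) : ∀ L : List (Cond W), (∀ c ∈ L, q ≤ c) →
    ∃ n₀, ∀ c ∈ L, ∀ m ≥ n₀, ∃ n ≥ i, Ext c.d (q.col b m) (c.col b n) := by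
  intro L
  induction L with
  | nil =>
    intro _
    exact ⟨0, fun c hc => absurd hc (List.not_mem_nil)⟩
  | cons a L ih =>
    intro h
    obtain ⟨n₁, h1⟩ := ih fun c hc => h c (List.mem_cons_of_mem _ hc)
    obtain ⟨N, hN⟩ := (Cond.le_def.1 (h a List.mem_cons_self)).2.2.2.2.2 b i
    refine ⟨max n₁ N, fun c hc m hm => ?_⟩
    rcases List.mem_cons.1 hc with rfl | hc
    · exact hN m ((le_max_right _ _).trans hm)
    · exact h1 c hc m ((le_max_left _ _).trans hm)

variable (W)

theorem taskSeq : TaskSeq W := by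
  intro St cond cols b k Inv Φ x₀ h0 hc0 H
  let T : ℕ → Type := fun i => {s : St × List (Cond W) // Inv i s.1 ∧
    (∀ j < k + i, ColOK b (cond s.1) (cols s.1 j)) ∧ (∀ c ∈ s.2, cond s.1 ≤ c) ∧
    cond s.1 ∈ s.2}
  have step : ∀ i (s : T i), ∃ s' : T (i + 1), cond s'.1.1 ≤ cond s.1.1 ∧
      (cond s.1.1).d < (cond s'.1.1).d ∧
      (∀ j < k + i, Ext (cond s.1.1).d (cols s'.1.1 j) (cols s.1.1 j)) ∧
      (∀ c ∈ s.1.2, ∃ n ≥ i, Ext c.d (cols s'.1.1 (k + i)) (c.col b n)) ∧
      Φ i s.1.1 s'.1.1 ∧ (∀ c ∈ s.1.2, c ∈ s'.1.2) := by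
    intro i s
    obtain ⟨⟨x, L⟩, hI, hok, hL, hmem⟩ := s
    obtain ⟨n₀, hn₀⟩ := exists_bound (cond x) b i L hL
    obtain ⟨x', h1, h2, h3, h4, ⟨n, hn, h5⟩, h6, h7⟩ := H i x n₀ hI hok
    refine ⟨⟨(x', cond x' :: L), h6, ?_, ?_, List.mem_cons_self⟩, h1, h2,
      fun j hj => (h3 j hj).2, ?_, h7, fun c hc => List.mem_cons_of_mem _ hc⟩
    · intro j hj
      rcases Nat.lt_or_ge j (k + i) with hlt | hge
      · exact (h3 j hlt).1
      · have : j = k + i := by omega
        subst this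
        exact h4
    · intro c hc
      rcases List.mem_cons.1 hc with rfl | hc
      · exact le_rfl
      · exact h1.trans (hL c hc)
    · intro c hc
      obtain ⟨n', hn', h8⟩ := hn₀ c hc n hn
      exact ⟨n', hn', h5.trans (Cond.le_def.1 (hL c hc)).1 h8⟩
  choose nxt hnxt using step
  let s : ∀ i, T i := fun i => Nat.rec (motive := T)
    ⟨(x₀, [cond x₀]), h0, hc0, by
      intro c hc
      rw [List.mem_singleton.1 hc], List.mem_singleton.2 rfl⟩ (fun i t => nxt i t) i
  have hs : ∀ i, s (i + 1) = nxt i (s i) := fun i => rfl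
  have hmono : ∀ i i', i' ≤ i → cond (s i').1.1 ∈ (s i).1.2 := by
    intro i
    induction i with
    | zero =>
      intro i' hi'
      obtain rfl : i' = 0 := by omega
      exact (s 0).2.2.2.2
    | succ i ih =>
      intro i' hi'
      rcases Nat.lt_or_ge i' (i + 1) with hlt | hge
      · rw [hs i]
        exact (hnxt i (s i)).2.2.2.2.2 _ (ih i' (by omega))
      · obtain rfl : i' = i + 1 := by omega
        exact (s (i + 1)).2.2.2.2
  refine ⟨fun i => (s i).1.1, rfl, fun i => (s i).2.1, fun i => ?_, ?_⟩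
  · exact (hnxt i (s i)).2.2.2.2.1
  · exact
      { le := fun i => (hnxt i (s i)).1
        lt := fun i => (hnxt i (s i)).2.1
        ok := fun i => (s i).2.2.1
        ext := fun i => (hnxt i (s i)).2.2.1
        new := fun i i' hi' => (hnxt i (s i)).2.2.2.1 _ (hmono i i' hi') }

end Pool.Agent.H304R3.FP
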